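import Pool.Agent.Helper72.FX.Own

/-!
# A flexible exotic affine space which is a hypersurface in `ℂ²⁸` and is not even stably an affine space
-/

set_option autoImplicit false

namespace Pool.Agent.Results.MP_3bffab_ag.FlexibleExoticHypersurface

theorem result :
    ∃ P : MvPolynomial (Fin 28) ℂ,
      Algebra.Smooth ℂ (MvPolynomial (Fin 28) ℂ ⧸ Ideal.span {P}) ∧
      (∀ φ : (MvPolynomial (Fin 28) ℂ ⧸ Ideal.span {P}) →ₐ[ℂ] ℂ,
        ∀ δ : (MvPolynomial (Fin 28) ℂ ⧸ Ideal.span {P}) →ₗ[ℂ] ℂ,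
        (∀ a b, δ (a * b) = φ a * δ b + φ b * δ a) →
        δ ∈ Submodule.span ℂ {ℓ : (MvPolynomial (Fin 28) ℂ ⧸ Ideal.span {P}) →ₗ[ℂ] ℂ |
          ∃ D : Derivation ℂ (MvPolynomial (Fin 28) ℂ ⧸ Ideal.span {P})
              (MvPolynomial (Fin 28) ℂ ⧸ Ideal.span {P}),
            (∀ a, ∃ k : ℕ, (⇑D)^[k] a = 0) ∧ ℓ = φ.toLinearMap.comp D.toLinearMap}) ∧
      (∀ j k : ℕ, IsEmpty (MvPolynomial (Fin j) (MvPolynomial (Fin 28) ℂ ⧸ Ideal.span {P}) ≃+*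
        MvPolynomial (Fin k) ℂ)) ∧
      ∃ g : (Fin 27 → ℂ) → (Fin 28 → ℂ),
        ContDiff ℝ (⊤ : ℕ∞) g ∧
        (∀ x, Function.Injective (fderiv ℝ g x)) ∧
        Topology.IsEmbedding g ∧
        Set.range g = {x : Fin 28 → ℂ | MvPolynomial.eval x P = 0} :=
  Pool.Agent.Helper72.FX.own

end Pool.Agent.Results.MP_3bffab_ag.FlexibleExoticHypersurface
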