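import Pool.Agent.Helper72.KRF.NonPoly

/-!
# MP_3bffab_ag: the cylinders over the Koras-Russell threefolds are flexible

`KR G` is the coordinate ring of the hypersurface `x + x² y + z² + G(t_1, ..., t_k) = 0` and
`Flexible` is the flexibility condition of the problem (both in `Pool.Agent.Helper72.KRF.Iso`).
For `k = 1`, `G = t³` the hypersurface is the Koras-Russell cubic threefold.
-/

set_option autoImplicit false

namespace Pool.Agent.Results.MP_3bffab_ag.KorasRussellCylinderFlexible

open Pool.Agent.Helper72.KRF

/-- (1) Let `G` be a nonzero polynomial in `k` variables over `ℂ` and `m ≥ 1`.  The product of the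
hypersurface `x + x² y + z² + G(t_1, ..., t_k) = 0` with the affine space of dimension `m` is a
smooth affine variety and it is flexible: its tangent space at every point is spanned by the
values of locally nilpotent derivations.

(2) The hypersurface `x + x² y + z² + t^l = 0` (`l ≥ 3` odd), a Koras-Russell threefold, is not
isomorphic to any affine space. -/
theorem result : (∀ (k : ℕ) (G : MvPolynomial (Fin k) ℂ), G ≠ 0 → ∀ m : ℕ, 1 ≤ m →
      Algebra.Smooth ℂ (MvPolynomial (Fin m) (KR G)) ∧ Flexible (MvPolynomial (Fin m) (KR G))) ∧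
    ∀ l : ℕ, Odd l → 3 ≤ l → ∀ n : ℕ,
      IsEmpty (KR (MvPolynomial.X 0 ^ l : MvPolynomial (Fin 1) ℂ) ≃ₐ[ℂ] MvPolynomial (Fin n) ℂ) :=
  ⟨fun _ G hG m hm => ⟨smooth_cyl G m, flexible_cyl hG hm⟩,
    fun _ hl h3 n => not_poly hl (by omega) n⟩

end Pool.Agent.Results.MP_3bffab_ag.KorasRussellCylinderFlexible
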